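import Pool.Agent.V8H55.AP.Stm

/-!
# The weighted bound for the error operator
-/

set_option autoImplicit false

open Finset

namespace Pool.Agent.V8H88.AP

open Pool.Agent.V8H55.AP

/-- Hölder's inequality with a weight -/
theorem holder {p : ℝ} (hp : 1 < p) (w : ℤ → ℝ) (hw : ∀ i, 0 < w i) (f : ℤ → ℝ) (hf : ∀ n, 0 ≤ f n)
    (V : Finset ℤ) :
    (∑ n ∈ V, f n) ^ p ≤ (∑ n ∈ V, f n ^ p * w n) * (∑ n ∈ V, w n ^ (-(1 / (p - 1)))) ^ (p - 1) := by
  have hp0 : 0 < p := by linarith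
  have hp1 : 0 < p - 1 := by linarith
  have hpq : p.HolderConjugate (p / (p - 1)) := Real.HolderConjugate.conjExponent hp
  have h1 := Real.inner_le_Lp_mul_Lq_of_nonneg V hpq (f := fun n => f n * w n ^ (1 / p))
    (g := fun n => w n ^ (-(1 / p))) (fun n _ => mul_nonneg (hf n) (Real.rpow_nonneg (hw n).le _))
    (fun n _ => Real.rpow_nonneg (hw n).le _)
  have e1 : ∀ n, f n * w n ^ (1 / p) * w n ^ (-(1 / p)) = f n := by
    intro n
    rw [mul_assoc, ← Real.rpow_add (hw n), add_neg_cancel, Real.rpow_zero, mul_one]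
  have e2 : ∀ n, (f n * w n ^ (1 / p)) ^ p = f n ^ p * w n := by
    intro n
    rw [Real.mul_rpow (hf n) (Real.rpow_nonneg (hw n).le _), ← Real.rpow_mul (hw n).le,
      one_div_mul_cancel hp0.ne', Real.rpow_one]
  have e3 : ∀ n, (w n ^ (-(1 / p))) ^ (p / (p - 1)) = w n ^ (-(1 / (p - 1))) := by
    intro n
    rw [← Real.rpow_mul (hw n).le]
    congr 1
    field_simp
  simp only [e1, e2, e3] at h1
  have hA : 0 ≤ ∑ n ∈ V, f n ^ p * w n :=
    sum_nonneg fun n _ => mul_nonneg (Real.rpow_nonneg (hf n) _) (hw n).le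
  have hB : 0 ≤ ∑ n ∈ V, w n ^ (-(1 / (p - 1))) := sum_nonneg fun n _ => Real.rpow_nonneg (hw n).le _
  have h2 := Real.rpow_le_rpow (sum_nonneg fun n _ => hf n) h1 hp0.le
  refine h2.trans (le_of_eq ?_)
  rw [Real.mul_rpow (Real.rpow_nonneg hA _) (Real.rpow_nonneg hB _), ← Real.rpow_mul hA, ← Real.rpow_mul hB,
    one_div_mul_cancel hp0.ne', Real.rpow_one]
  congr 2
  field_simp

/-- One scale. -/
theorem one_scale {p K : ℝ} (hp : 1 < p) (hK : 0 < K) (w : ℤ → ℝ) (hw : ∀ i, 0 < w i) (hA : DAp p K w)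
    (U : Finset ℤ) (f : ℤ → ℝ) (hf : ∀ n, 0 ≤ f n) (i : ℕ) :
    ∑ m ∈ U, ((2 ^ i : ℝ)⁻¹ * ∑ n ∈ U.filter (fun n => |m - n| < 2 ^ i), f n) ^ p * w m ≤
      3 ^ (p + 1) * K * ∑ n ∈ U, f n ^ p * w n := by
  classical
  have hp0 : 0 < p := by linarith
  have h2i : (0 : ℤ) < 2 ^ i := by positivity
  have h2r : (0 : ℝ) < 2 ^ i := by positivity
  -- the blocks
  let blk : ℤ → ℤ := fun m => m / 2 ^ i
  let S : Finset ℤ := U.image blk
  have hmem : ∀ m n : ℤ, |m - n| < 2 ^ i → n ∈ J i (blk m) := by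
    intro m n h
    rw [abs_lt] at h
    have e1 := Int.ediv_mul_le m h2i.ne'
    have e2 := Int.lt_ediv_add_one_mul_self m h2i
    rw [J, mem_Ico]
    simp only [blk]
    constructor <;> nlinarith
  have hmemI : ∀ m : ℤ, m ∈ J i (blk m) := fun m => hmem m m (by simp)
  have hcount : ∀ n : ℤ, #(S.filter (fun j => n ∈ J i j)) ≤ 3 := by
    intro n
    have hsub : S.filter (fun j => n ∈ J i j) ⊆ Finset.Icc (blk n - 1) (blk n + 1) := by
      intro j hj
      rw [mem_filter, J, mem_Ico] at hj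
      obtain ⟨-, h1, h2⟩ := hj
      rw [mem_Icc]
      have e1 := Int.ediv_mul_le n h2i.ne'
      have e2 := Int.lt_ediv_add_one_mul_self n h2i
      simp only [blk]
      constructor
      · by_contra hcon
        push Not at hcon
        have : j + 2 ≤ n / 2 ^ i := by omega
        nlinarith
      · by_contra hcon
        push Not at hcon
        have : n / 2 ^ i + 1 ≤ j - 1 := by omega
        nlinarith
    refine (card_le_card hsub).trans ?_
    rw [Int.card_Icc]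
    omega
  -- the bound for one block
  have hblock : ∀ j : ℤ, ((2 ^ i : ℝ)⁻¹ * ∑ n ∈ U.filter (fun n => n ∈ J i j), f n) ^ p * ∑ m ∈ J i j, w m ≤
      3 ^ p * K * ∑ n ∈ U.filter (fun n => n ∈ J i j), f n ^ p * w n := by
    intro j
    have hJ : J i j = Finset.Ico ((j - 1) * 2 ^ i) ((j - 1) * 2 ^ i + ((3 * 2 ^ i : ℕ) : ℤ)) := by
      rw [J]
      congr 1
      push_cast
      ring
    have h1 := hA ((j - 1) * 2 ^ i) (3 * 2 ^ i)
    rw [← hJ] at h1
    have h2 := holder hp w hw f hf (U.filter (fun n => n ∈ J i j))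
    have hσ : (∑ n ∈ U.filter (fun n => n ∈ J i j), w n ^ (-(1 / (p - 1)))) ^ (p - 1) ≤
        (∑ n ∈ J i j, w n ^ (-(1 / (p - 1)))) ^ (p - 1) := by
      refine Real.rpow_le_rpow (sum_nonneg fun n _ => Real.rpow_nonneg (hw n).le _) ?_ (by linarith)
      exact sum_le_sum_of_subset_of_nonneg (fun n hn => (mem_filter.mp hn).2)
        fun n _ _ => Real.rpow_nonneg (hw n).le _
    have hfw : 0 ≤ ∑ n ∈ U.filter (fun n => n ∈ J i j), f n ^ p * w n :=
      sum_nonneg fun n _ => mul_nonneg (Real.rpow_nonneg (hf n) _) (hw n).le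
    have hwJ : 0 ≤ ∑ m ∈ J i j, w m := sum_nonneg fun n _ => (hw n).le
    have hS : 0 ≤ ∑ n ∈ U.filter (fun n => n ∈ J i j), f n := sum_nonneg fun n _ => hf n
    rw [Real.mul_rpow (by positivity) hS]
    have hc : 0 ≤ ((2 ^ i : ℝ)⁻¹) ^ p := Real.rpow_nonneg (by positivity) _
    calc ((2 ^ i : ℝ)⁻¹) ^ p * (∑ n ∈ U.filter (fun n => n ∈ J i j), f n) ^ p * ∑ m ∈ J i j, w m
        ≤ ((2 ^ i : ℝ)⁻¹) ^ p * ((∑ n ∈ U.filter (fun n => n ∈ J i j), f n ^ p * w n) *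
            (∑ n ∈ J i j, w n ^ (-(1 / (p - 1)))) ^ (p - 1)) * ∑ m ∈ J i j, w m := by
          gcongr
          exact h2.trans (mul_le_mul_of_nonneg_left hσ hfw)
      _ = ((2 ^ i : ℝ)⁻¹) ^ p * (∑ n ∈ U.filter (fun n => n ∈ J i j), f n ^ p * w n) *
            ((∑ m ∈ J i j, w m) * (∑ n ∈ J i j, w n ^ (-(1 / (p - 1)))) ^ (p - 1)) := by ring
      _ ≤ ((2 ^ i : ℝ)⁻¹) ^ p * (∑ n ∈ U.filter (fun n => n ∈ J i j), f n ^ p * w n) *
            (K * ((3 * 2 ^ i : ℕ) : ℝ) ^ p) := by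
          exact mul_le_mul_of_nonneg_left h1 (mul_nonneg hc hfw)
      _ = 3 ^ p * K * ∑ n ∈ U.filter (fun n => n ∈ J i j), f n ^ p * w n := by
          push_cast
          rw [Real.mul_rpow (by norm_num) (by positivity), Real.inv_rpow (by positivity)]
          have : ((2 ^ i : ℝ)) ^ p ≠ 0 := (Real.rpow_pos_of_pos h2r p).ne'
          field_simp
  -- the sum over the blocks
  calc ∑ m ∈ U, ((2 ^ i : ℝ)⁻¹ * ∑ n ∈ U.filter (fun n => |m - n| < 2 ^ i), f n) ^ p * w m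
      ≤ ∑ m ∈ U, ((2 ^ i : ℝ)⁻¹ * ∑ n ∈ U.filter (fun n => n ∈ J i (blk m)), f n) ^ p * w m := by
        refine sum_le_sum fun m _ => mul_le_mul_of_nonneg_right ?_ (hw m).le
        refine Real.rpow_le_rpow (mul_nonneg (by positivity) (sum_nonneg fun n _ => hf n)) ?_ hp0.le
        refine mul_le_mul_of_nonneg_left ?_ (by positivity)
        refine sum_le_sum_of_subset_of_nonneg ?_ fun n _ _ => hf n
        intro n hn
        rw [mem_filter] at hn ⊢
        exact ⟨hn.1, hmem m n hn.2⟩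
    _ = ∑ j ∈ S, ∑ m ∈ U.filter (fun m => blk m = j),
          ((2 ^ i : ℝ)⁻¹ * ∑ n ∈ U.filter (fun n => n ∈ J i (blk m)), f n) ^ p * w m := by
        rw [sum_fiberwise_of_maps_to (fun m hm => mem_image_of_mem blk hm)]
    _ ≤ ∑ j ∈ S, 3 ^ p * K * ∑ n ∈ U.filter (fun n => n ∈ J i j), f n ^ p * w n := by
        refine sum_le_sum fun j _ => ?_
        have g1 : ∑ m ∈ U.filter (fun m => blk m = j),
            ((2 ^ i : ℝ)⁻¹ * ∑ n ∈ U.filter (fun n => n ∈ J i (blk m)), f n) ^ p * w m =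
            ((2 ^ i : ℝ)⁻¹ * ∑ n ∈ U.filter (fun n => n ∈ J i j), f n) ^ p *
            ∑ m ∈ U.filter (fun m => blk m = j), w m := by
          rw [mul_sum]
          refine sum_congr rfl fun m hm => ?_
          rw [(mem_filter.mp hm).2]
        rw [g1]
        refine le_trans ?_ (hblock j)
        refine mul_le_mul_of_nonneg_left ?_
            (Real.rpow_nonneg (mul_nonneg (by positivity) (sum_nonneg fun n _ => hf n)) _)
        refine sum_le_sum_of_subset_of_nonneg ?_ fun n _ _ => (hw n).le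
        intro m hm
        rw [mem_filter] at hm
        rw [← hm.2]
        exact hmemI m
    _ = 3 ^ p * K * ∑ n ∈ U, (#(S.filter (fun j => n ∈ J i j)) : ℝ) * (f n ^ p * w n) := by
        rw [← mul_sum]
        congr 1
        simp_rw [sum_filter]
        rw [sum_comm]
        refine sum_congr rfl fun n _ => ?_
        rw [← sum_filter, sum_const, nsmul_eq_mul]
    _ ≤ 3 ^ p * K * ∑ n ∈ U, 3 * (f n ^ p * w n) := by
        refine mul_le_mul_of_nonneg_left ?_ (by positivity)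
        refine sum_le_sum fun n _ => mul_le_mul_of_nonneg_right ?_
          (mul_nonneg (Real.rpow_nonneg (hf n) _) (hw n).le)
        exact_mod_cast hcount n
    _ = 3 ^ (p + 1) * K * ∑ n ∈ U, f n ^ p * w n := by
        rw [← mul_sum, Real.rpow_add (by norm_num), Real.rpow_one]
        ring

/-- Jensen's inequality for the weights `2 ^ (-i)` -/
theorem jensen {p : ℝ} (hp : 1 < p) (L : ℕ) (x : ℕ → ℝ) (hx : ∀ i, 0 ≤ x i) :
    (∑ i ∈ range L, (2 ^ i : ℝ)⁻¹ * x i) ^ p ≤ 2 ^ p * ∑ i ∈ range L, (2 ^ i : ℝ)⁻¹ * x i ^ p := by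
  have hp0 : 0 < p := by linarith
  have hW : ∑ i ∈ range L, (2 ^ i : ℝ)⁻¹ ≤ 2 := by
    have := sum_geometric_two_le L
    simpa [one_div] using this
  set W := ∑ i ∈ range L, (2 ^ i : ℝ)⁻¹ with hWd
  by_cases hL : L = 0
  · subst hL
    simp only [range_zero, sum_empty, mul_zero]
    rw [Real.zero_rpow hp0.ne']
  have hWpos : 0 < W := by
    refine sum_pos (fun i _ => by positivity) ?_
    exact nonempty_range_iff.mpr hL
  have hW1 : 1 ≤ W := by
    have h0 : (0 : ℕ) ∈ range L := mem_range.mpr (Nat.pos_of_ne_zero hL)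
    have := single_le_sum (f := fun i : ℕ => (2 ^ i : ℝ)⁻¹) (fun i _ => by positivity) h0
    simpa using this
  have h1 := Real.rpow_arith_mean_le_arith_mean_rpow (range L) (fun i => (2 ^ i : ℝ)⁻¹ / W) x
    (fun i _ => by positivity) (by rw [← sum_div, div_self hWpos.ne']) (fun i _ => hx i) hp.le
  have h2 : ∑ i ∈ range L, (2 ^ i : ℝ)⁻¹ * x i = W * ∑ i ∈ range L, (2 ^ i : ℝ)⁻¹ / W * x i := by
    rw [mul_sum]
    refine sum_congr rfl fun i _ => ?_
    field_simp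
  have h3 : 0 ≤ ∑ i ∈ range L, (2 ^ i : ℝ)⁻¹ / W * x i := sum_nonneg fun i _ =>
    mul_nonneg (by positivity) (hx i)
  have h4 : 0 ≤ ∑ i ∈ range L, (2 ^ i : ℝ)⁻¹ * x i ^ p := sum_nonneg fun i _ =>
    mul_nonneg (by positivity) (Real.rpow_nonneg (hx i) _)
  rw [h2, Real.mul_rpow hWpos.le h3]
  calc W ^ p * (∑ i ∈ range L, (2 ^ i : ℝ)⁻¹ / W * x i) ^ p
      ≤ 2 ^ p * ∑ i ∈ range L, (2 ^ i : ℝ)⁻¹ / W * x i ^ p := by
        refine mul_le_mul (Real.rpow_le_rpow hWpos.le hW hp0.le) h1 (Real.rpow_nonneg h3 _) (by positivity)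
    _ ≤ 2 ^ p * ∑ i ∈ range L, (2 ^ i : ℝ)⁻¹ * x i ^ p := by
        refine mul_le_mul_of_nonneg_left ?_ (by positivity)
        refine sum_le_sum fun i _ => mul_le_mul_of_nonneg_right ?_ (Real.rpow_nonneg (hx i) _)
        exact div_le_self (by positivity) hW1

theorem kernel_le (k : ℤ) (L : ℕ) (hL : k.natAbs < L) :
    1 / (1 + (k : ℝ) ^ 2) ≤ 4 * ∑ i ∈ (range L).filter (fun i => |k| < 2 ^ i), ((4 : ℝ) ^ i)⁻¹ := by
  classical
  have hex : ∃ i : ℕ, |k| < 2 ^ i := ⟨k.natAbs, by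
    rw [Int.abs_eq_natAbs]
    exact_mod_cast Nat.lt_two_pow_self⟩
  set i := Nat.find hex with hi
  have h1 : |k| < 2 ^ i := Nat.find_spec hex
  have h2 : i < L := by
    refine lt_of_le_of_lt (Nat.find_min' hex ?_) hL
    rw [Int.abs_eq_natAbs]
    exact_mod_cast Nat.lt_two_pow_self
  have h3 : ((4 : ℝ) ^ i)⁻¹ ≤ ∑ i ∈ (range L).filter (fun i => |k| < 2 ^ i), ((4 : ℝ) ^ i)⁻¹ :=
    single_le_sum (f := fun i : ℕ => ((4 : ℝ) ^ i)⁻¹) (fun i _ => by positivity)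
      (mem_filter.mpr ⟨mem_range.mpr h2, h1⟩)
  refine le_trans ?_ (mul_le_mul_of_nonneg_left h3 (by norm_num))
  by_cases h0 : i = 0
  · rw [h0, pow_zero, inv_one, mul_one, div_le_iff₀ (by positivity)]
    nlinarith [sq_nonneg (k : ℝ)]
  · obtain ⟨r, hr⟩ := Nat.exists_eq_succ_of_ne_zero h0
    have h4 : ¬ |k| < 2 ^ r := Nat.find_min hex (by omega)
    push Not at h4
    have h5 : ((2 : ℝ) ^ r) ≤ |(k : ℝ)| := by exact_mod_cast h4
    have h6 : ((4 : ℝ) ^ r) ≤ (k : ℝ) ^ 2 := by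
      have : (4 : ℝ) ^ r = ((2 : ℝ) ^ r) ^ 2 := by
        rw [← pow_mul, mul_comm, pow_mul]
        norm_num
      rw [this, ← sq_abs (k : ℝ)]
      exact pow_le_pow_left₀ (by positivity) h5 2
    rw [hr, Nat.succ_eq_add_one, pow_succ (4 : ℝ) r]
    have h7 : (0 : ℝ) < 4 ^ r := by positivity
    rw [div_le_iff₀ (by positivity)]
    have h8 : 4 * ((4 : ℝ) ^ r * 4)⁻¹ * (1 + (k : ℝ) ^ 2) = (1 + (k : ℝ) ^ 2) / 4 ^ r := by
      field_simp
    rw [h8, le_div_iff₀ h7]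
    linarith

theorem davg : DAvg := by
  classical
  intro p K hp hK
  have hp0 : 0 < p := by linarith
  refine ⟨8 ^ p * 2 * (3 ^ (p + 1) * K), by positivity, fun w hw hA U f hf => ?_⟩
  obtain ⟨L, hL⟩ : ∃ L : ℕ, ∀ m ∈ U, ∀ n ∈ U, (m - n).natAbs < L := by
    refine ⟨∑ m ∈ U, ∑ n ∈ U, (m - n).natAbs + 1, fun m hm n hn => ?_⟩
    have h1 : (m - n).natAbs ≤ ∑ n ∈ U, (m - n).natAbs :=
      single_le_sum (f := fun n => (m - n).natAbs) (fun _ _ => Nat.zero_le _) hn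
    have h2 : ∑ n ∈ U, (m - n).natAbs ≤ ∑ m ∈ U, ∑ n ∈ U, (m - n).natAbs :=
      single_le_sum (f := fun m => ∑ n ∈ U, (m - n).natAbs) (fun _ _ => Nat.zero_le _) hm
    exact Nat.lt_succ_of_le (h1.trans h2)
  let A : ℕ → ℤ → ℝ := fun i m => (2 ^ i : ℝ)⁻¹ * ∑ n ∈ U.filter (fun n => |m - n| < 2 ^ i), f n
  have hA0 : ∀ i m, 0 ≤ A i m := fun i m => mul_nonneg (by positivity) (sum_nonneg fun n _ => hf n)
  have hpt : ∀ m ∈ U, ∑ n ∈ U, f n / (1 + ((m - n : ℤ) : ℝ) ^ 2) ≤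
      4 * ∑ i ∈ range L, (2 ^ i : ℝ)⁻¹ * A i m := by
    intro m hm
    calc ∑ n ∈ U, f n / (1 + ((m - n : ℤ) : ℝ) ^ 2)
        ≤ ∑ n ∈ U, f n * (4 * ∑ i ∈ (range L).filter (fun i => |m - n| < 2 ^ i), ((4 : ℝ) ^ i)⁻¹) := by
          refine sum_le_sum fun n hn => ?_
          rw [div_eq_mul_one_div]
          exact mul_le_mul_of_nonneg_left (kernel_le _ _ (hL m hm n hn)) (hf n)
      _ = 4 * ∑ i ∈ range L, (2 ^ i : ℝ)⁻¹ * A i m := by
          simp only [A]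
          simp_rw [sum_filter, mul_sum]
          rw [sum_comm]
          refine sum_congr rfl fun i _ => ?_
          refine sum_congr rfl fun n _ => ?_
          have : ((4 : ℝ) ^ i)⁻¹ = (2 ^ i : ℝ)⁻¹ * (2 ^ i : ℝ)⁻¹ := by
            rw [← mul_inv, ← mul_pow]
            norm_num
          split_ifs
          · rw [this]
            ring
          · ring
  have hm : ∀ m ∈ U, (∑ n ∈ U, f n / (1 + ((m - n : ℤ) : ℝ) ^ 2)) ^ p ≤
      8 ^ p * ∑ i ∈ range L, (2 ^ i : ℝ)⁻¹ * A i m ^ p := by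
    intro m hm
    have h1 := Real.rpow_le_rpow (sum_nonneg fun n _ => div_nonneg (hf n) (by positivity)) (hpt m hm) hp0.le
    refine h1.trans ?_
    rw [Real.mul_rpow (by norm_num) (sum_nonneg fun i _ => mul_nonneg (by positivity) (hA0 i m))]
    have h2 := jensen hp L (fun i => A i m) (fun i => hA0 i m)
    calc (4 : ℝ) ^ p * (∑ i ∈ range L, (2 ^ i : ℝ)⁻¹ * A i m) ^ p
        ≤ 4 ^ p * (2 ^ p * ∑ i ∈ range L, (2 ^ i : ℝ)⁻¹ * A i m ^ p) :=
          mul_le_mul_of_nonneg_left h2 (by positivity)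
      _ = 8 ^ p * ∑ i ∈ range L, (2 ^ i : ℝ)⁻¹ * A i m ^ p := by
          rw [← mul_assoc, ← Real.mul_rpow (by norm_num) (by norm_num)]
          norm_num
  calc ∑ m ∈ U, (∑ n ∈ U, f n / (1 + ((m - n : ℤ) : ℝ) ^ 2)) ^ p * w m
      ≤ ∑ m ∈ U, (8 ^ p * ∑ i ∈ range L, (2 ^ i : ℝ)⁻¹ * A i m ^ p) * w m :=
        sum_le_sum fun m h => mul_le_mul_of_nonneg_right (hm m h) (hw m).le
    _ = 8 ^ p * ∑ i ∈ range L, (2 ^ i : ℝ)⁻¹ * ∑ m ∈ U, A i m ^ p * w m := by
        simp_rw [mul_sum, sum_mul]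
        rw [sum_comm]
        refine sum_congr rfl fun i _ => ?_
        refine sum_congr rfl fun m _ => ?_
        ring
    _ ≤ 8 ^ p * ∑ i ∈ range L, (2 ^ i : ℝ)⁻¹ * (3 ^ (p + 1) * K * ∑ n ∈ U, f n ^ p * w n) := by
        refine mul_le_mul_of_nonneg_left ?_ (by positivity)
        refine sum_le_sum fun i _ => mul_le_mul_of_nonneg_left ?_ (by positivity)
        exact one_scale hp hK w hw hA U f hf i
    _ ≤ 8 ^ p * 2 * (3 ^ (p + 1) * K) * ∑ n ∈ U, f n ^ p * w n := by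
        rw [← sum_mul]
        have hW : ∑ i ∈ range L, (2 ^ i : ℝ)⁻¹ ≤ 2 := by
          have := sum_geometric_two_le L
          simpa [one_div] using this
        have hfw : 0 ≤ ∑ n ∈ U, f n ^ p * w n :=
          sum_nonneg fun n _ => mul_nonneg (Real.rpow_nonneg (hf n) _) (hw n).le
        have h3 : (∑ i ∈ range L, (2 ^ i : ℝ)⁻¹) * (3 ^ (p + 1) * K * ∑ n ∈ U, f n ^ p * w n) ≤
            2 * (3 ^ (p + 1) * K * ∑ n ∈ U, f n ^ p * w n) :=
          mul_le_mul_of_nonneg_right hW (by positivity)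
        calc _ ≤ (8 : ℝ) ^ p * (2 * (3 ^ (p + 1) * K * ∑ n ∈ U, f n ^ p * w n)) :=
              mul_le_mul_of_nonneg_left h3 (by positivity)
          _ = _ := by ring

end Pool.Agent.V8H88.AP
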